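import Pool.Agent.Work.MP_cfa43e_lc.Her.AllH

/-!
# Embedding problems for hereditary classes of unbounded tree width
-/

set_option autoImplicit false

namespace Pool.Agent.Results.MP_cfa43e_lc.HereditaryClasses

open Pool.Agent.PEmb Pool.Agent.PReg Pool.Agent.PHer

/-- Let `C` be a decidable class of finite graphs which is hereditary, i.e. closed under induced
subgraphs. Suppose that one of the following holds.

1. For some `t` the class contains graphs without an induced star with `t` leaves of arbitrarily
   large tree width.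
2. For some `t` the class contains nonempty graphs without an induced complete bipartite graph
   `K_{t,t}` of arbitrarily large minimum degree.
3. The class contains graphs with arbitrarily large grids as induced minors.

Then `p`-EMB(`C`) is W[1]-complete: `p`-CLIQUE reduces to `p`-EMB(`C`), and `p`-EMB(`C`) reduces to
`p`-CLIQUE, by fpt-reductions. -/
theorem result (C : Code → Prop) (hC : ComputablePred C)
    (hH : ∀ A B : Code, C B → Nonempty (graph A ↪g graph B) → C A)
    (h : (∃ t : ℕ, ∀ w : ℕ, ∃ A : Code, C A ∧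
        (∀ (v : Fin A.length) (s : Finset (Fin A.length)), (∀ u ∈ s, (graph A).Adj v u) →
          (∀ u ∈ s, ∀ u' ∈ s, ¬ (graph A).Adj u u') → s.card < t) ∧
        ¬ TreeWidthLE (graph A) w) ∨
      (∃ t : ℕ, ∀ δ : ℕ, ∃ A : Code, C A ∧ A ≠ [] ∧
        (∀ X Y : Finset (Fin A.length), X.card = t → Y.card = t →
          (∀ a ∈ X, ∀ a' ∈ X, ¬ (graph A).Adj a a') → (∀ b ∈ Y, ∀ b' ∈ Y, ¬ (graph A).Adj b b') →
          ¬ ∀ a ∈ X, ∀ b ∈ Y, (graph A).Adj a b) ∧
        ∀ v, δ ≤ ((graph A).neighborSet v).ncard) ∨
      (∀ K : ℕ, ∃ A : Code, C A ∧ ∃ B, IGrid (graph A) K B)) :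
    FptReducible Clique cliqueParam (Emb C) embParam ∧
      FptReducible (Emb C) embParam Clique cliqueParam := by
  refine ⟨?_, m4 C hC⟩
  rcases h with ⟨t, h⟩ | ⟨t, h⟩ | h
  · exact mainStar t C hC hH h
  · exact mainDeg t C hC hH h
  · exact mainIG C hC hH h

end Pool.Agent.Results.MP_cfa43e_lc.HereditaryClasses
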