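import Pool.Agent.Work.MP_cfa43e_lc.TreeWidth
import Pool.Agent.Work.Tools.GridThm.All

/-!
# Embedding problems for classes of graphs that are closed under subgraphs
-/

set_option autoImplicit false

namespace Pool.Agent.Results.MP_cfa43e_lc.MonotoneClasses

open Pool.Agent.PEmb

/-- Let `C` be a decidable class of finite graphs that is closed under subgraphs and has unbounded
tree width. Then `p`-EMB(`C`) is W[1]-complete: `p`-CLIQUE reduces to `p`-EMB(`C`), and
`p`-EMB(`C`) reduces to `p`-CLIQUE, by fpt-reductions. -/
theorem result (C : Code → Prop) (hC : ComputablePred C)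
    (hsub : ∀ A B : Code, C B → Embeds (graph A) (graph B) → C A)
    (htw : ∀ w : ℕ, ∃ A : Code, C A ∧ ¬ TreeWidthLE (graph A) w) :
    FptReducible Clique cliqueParam (Emb C) embParam ∧
      FptReducible (Emb C) embParam Clique cliqueParam :=
  ⟨main_tw Pool.Agent.GridThm.grid_minor C hC hsub htw, m4 C hC⟩

end Pool.Agent.Results.MP_cfa43e_lc.MonotoneClasses
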