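import Pool.Agent.Work.MP_cfa43e_lc.Nr.All

/-!
# Embedding problems for classes with dense nearly regular parts, without closure properties
-/

set_option autoImplicit false

namespace Pool.Agent.Results.MP_cfa43e_lc.NearlyRegularClasses

open Pool.Agent.PEmb Pool.Agent.PReg

/-- Let `C` be a decidable class of finite graphs; no closure property is assumed. Suppose that one
of the following holds.

1. For some `t` the class contains regular graphs (of bounded or unbounded degree) of arbitrarily
   large tree width in which any two vertices have fewer than `t` common neighbours.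
2. For some `t` and every `w` the class contains a graph `A` with a set `U` of vertices and numbers
   `d`, `D`, `κ` such that every vertex of `U` has at least `d` neighbours in `U` and at most `D`
   neighbours in `A`, any two vertices of `A` have at most `κ` common neighbours,
   `D + κ + 3 < 2 d` or `8 (κ + 6) D ≤ d²`, and the graph which `U` induces has no subgraph
   `K_{t,t}` and has tree width larger than `w`.

Then `p`-EMB(`C`) is W[1]-complete: `p`-CLIQUE reduces to `p`-EMB(`C`), and `p`-EMB(`C`) reduces to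
`p`-CLIQUE, by fpt-reductions. -/
theorem result (C : Code → Prop) (hC : ComputablePred C)
    (h : (∃ t : ℕ, ∀ w : ℕ, ∃ A : Code, C A ∧
        (∃ r, ∀ v, ((graph A).neighborSet v).ncard = r) ∧
        (∀ x y, x ≠ y → ((graph A).neighborSet x ∩ (graph A).neighborSet y).ncard < t) ∧
        ¬ TreeWidthLE (graph A) w) ∨
      (∃ t : ℕ, ∀ w : ℕ, ∃ A : Code, C A ∧ ∃ (U : Set (Fin A.length)) (d D κ : ℕ),
        (∀ v ∈ U, d ≤ ((graph A).neighborSet v ∩ U).ncard ∧
          ((graph A).neighborSet v).ncard ≤ D) ∧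
        (∀ x y, x ≠ y → ((graph A).neighborSet x ∩ (graph A).neighborSet y).ncard ≤ κ) ∧
        (D + κ + 3 < 2 * d ∨ 8 * (κ + 6) * D ≤ d ^ 2) ∧
        (∀ X Y : Finset (Fin A.length), (∀ x ∈ X, x ∈ U) → (∀ y ∈ Y, y ∈ U) → X.card = t →
          Y.card = t → ¬ ∀ x ∈ X, ∀ y ∈ Y, (graph A).Adj x y) ∧
        ¬ TreeWidthLE ((graph A).induce U) w)) :
    FptReducible Clique cliqueParam (Emb C) embParam ∧
      FptReducible (Emb C) embParam Clique cliqueParam := by
  refine ⟨?_, m4 C hC⟩
  rcases h with ⟨t, h⟩ | ⟨t, h⟩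
  · exact Nr.mainRegK t C hC h
  · refine Nr.mainThk (t + 1) C hC fun w => ?_
    obtain ⟨A, hA, U, d, D, κ, h1, h2, h3, h4, h5⟩ := h w
    refine ⟨A, hA, U, d, D, κ, ⟨fun v hv => (h1 v hv).1, fun v hv => (h1 v hv).2, h2, h3⟩, ?_, h5⟩
    intro X Y hX hY hXY
    obtain ⟨x0, hx0⟩ := Finset.card_pos.1 (show 0 < X.card by omega)
    obtain ⟨y0, hy0⟩ := Finset.card_pos.1 (show 0 < Y.card by omega)
    obtain ⟨X', hX', hXc⟩ := Finset.exists_subset_card_eq (show t ≤ X.card by omega)
    obtain ⟨Y', hY', hYc⟩ := Finset.exists_subset_card_eq (show t ≤ Y.card by omega)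
    exact h4 X' Y' (fun x hx => (hXY x (hX' hx) y0 hy0).2.1)
      (fun y hy => (hXY x0 hx0 y (hY' hy)).2.2) hXc hYc
      fun x hx y hy => (hXY x (hX' hx) y (hY' hy)).1

end Pool.Agent.Results.MP_cfa43e_lc.NearlyRegularClasses
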