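import Pool.Agent.Work.MP_cfa43e_lc.Reg.All

/-!
# Embedding problems for classes with regular graphs or thin cores, without closure properties
-/

set_option autoImplicit false

namespace Pool.Agent.Results.MP_cfa43e_lc.RegularClasses

open Pool.Agent.PEmb Pool.Agent.PReg

/-- Let `C` be a decidable class of finite graphs; no closure property is assumed. Suppose that one
of the following holds.

1. For some `d` the class contains regular graphs of degree at most `d` of arbitrarily large tree
   width.
2. For every `w` the class contains a graph `A` such that, for some `δ`, the `δ`-core of `A` has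
   maximum degree at most `5` and the subgraph induced by the vertices of the `δ`-core which have
   degree `δ` in `A` has tree width larger than `w`.

Then `p`-EMB(`C`) is W[1]-complete: `p`-CLIQUE reduces to `p`-EMB(`C`), and `p`-EMB(`C`) reduces to
`p`-CLIQUE, by fpt-reductions. -/
theorem result (C : Code → Prop) (hC : ComputablePred C)
    (h : (∃ d : ℕ, ∀ w : ℕ, ∃ A : Code, C A ∧
        (∃ r ≤ d, ∀ v, ((graph A).neighborSet v).ncard = r) ∧ ¬ TreeWidthLE (graph A) w) ∨
      (∀ w : ℕ, ∃ A : Code, C A ∧ ∃ δ : ℕ,
        (∀ v ∈ core δ (graph A), ((graph A).neighborSet v ∩ core δ (graph A)).ncard ≤ 5) ∧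
        ¬ TreeWidthLE ((graph A).induce (thin δ (graph A))) w)) :
    FptReducible Clique cliqueParam (Emb C) embParam ∧
      FptReducible (Emb C) embParam Clique cliqueParam := by
  refine ⟨?_, m4 C hC⟩
  rcases h with ⟨d, h⟩ | h
  · exact mainReg d C hC h
  · exact mainR C hC h

end Pool.Agent.Results.MP_cfa43e_lc.RegularClasses
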